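import Pool.Agent.helper40.SU.SpecB

/-! SU (MP_c66272_nt), row EUP: partial Euler products. -/

set_option autoImplicit false

namespace Pool.Agent.SU

open Finset

theorem EUP : EUP_stmt := by
  intro F hF0 hF1 hFm q N
  classical
  set P : Finset ℕ := (cop q N).filter Nat.Prime with hP
  have hsum : ∀ p : ℕ, 1 + ∑ b ∈ Icc 1 N, F (p ^ b) = ∑ b ∈ range (N + 1), F (p ^ b) := by
    intro p
    have e : Icc 1 N = Ico 1 (N + 1) := by
      ext x
      simp only [mem_Icc, mem_Ico]
      omega
    rw [e, range_eq_Ico, sum_eq_sum_Ico_succ_bot (Nat.succ_pos N), pow_zero, hF1]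
  have hprod : ∏ p ∈ P, (1 + ∑ b ∈ Icc 1 N, F (p ^ b)) =
      ∑ f ∈ P.pi (fun _ => range (N + 1)), ∏ x ∈ P.attach, F (x.1 ^ (f x.1 x.2)) := by
    rw [prod_congr rfl (fun p _ => hsum p), prod_sum]
  have hFn : ∀ n ∈ cop q N, F n = ∏ x ∈ P.attach, F (x.1 ^ (n.factorization x.1)) := by
    intro n hn
    unfold cop at hn
    rw [mem_filter, mem_Icc] at hn
    have hn0 : n ≠ 0 := by omega
    rw [prod_attach P (fun p => F (p ^ (n.factorization p))),
      Nat.multiplicative_factorization F (fun x y h => hFm x y h) hF1 hn0, Finsupp.prod, Nat.support_factorization]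
    refine prod_subset ?_ ?_
    · intro p hp
      have hpp := Nat.prime_of_mem_primeFactors hp
      have hpd := Nat.dvd_of_mem_primeFactors hp
      rw [hP, mem_filter]
      unfold cop
      rw [mem_filter, mem_Icc]
      exact ⟨⟨⟨hpp.one_lt.le, (Nat.le_of_dvd (by omega) hpd).trans hn.1.2⟩, hn.2.coprime_dvd_left hpd⟩, hpp⟩
    · intro p hp hpn
      have h0 : n.factorization p = 0 := by
        rw [← Finsupp.notMem_support_iff, Nat.support_factorization]
        exact hpn
      rw [h0, pow_zero, hF1]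
  rw [hprod, sum_congr rfl hFn]
  have hinj : Set.InjOn (fun (n : ℕ) (p : ℕ) (_ : p ∈ P) => n.factorization p) (cop q N : Set ℕ) := by
    intro n hn n' hn' h
    have hmem : ∀ m ∈ (cop q N : Set ℕ), m ≠ 0 ∧ ∀ p, p ∉ P → m.factorization p = 0 := by
      intro m hm
      rw [mem_coe] at hm
      unfold cop at hm
      rw [mem_filter, mem_Icc] at hm
      refine ⟨by omega, fun p hp => ?_⟩
      rw [← Finsupp.notMem_support_iff, Nat.support_factorization]
      intro hpm
      apply hp
      have hpp := Nat.prime_of_mem_primeFactors hpm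
      have hpd := Nat.dvd_of_mem_primeFactors hpm
      rw [hP, mem_filter]
      unfold cop
      rw [mem_filter, mem_Icc]
      exact ⟨⟨⟨hpp.one_lt.le, (Nat.le_of_dvd (by omega) hpd).trans hm.1.2⟩, hm.2.coprime_dvd_left hpd⟩, hpp⟩
    refine Nat.eq_of_factorization_eq (hmem n hn).1 (hmem n' hn').1 fun p => ?_
    by_cases hp : p ∈ P
    · exact congrFun (congrFun h p) hp
    · rw [(hmem n hn).2 p hp, (hmem n' hn').2 p hp]
  rw [← sum_image (f := fun f : (p : ℕ) → p ∈ P → ℕ => ∏ x ∈ P.attach, F (x.1 ^ (f x.1 x.2))) hinj]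
  refine sum_le_sum_of_subset_of_nonneg ?_ fun f _ _ => prod_nonneg fun x _ => hF0 _
  intro f hf
  rw [mem_image] at hf
  obtain ⟨n, hn, rfl⟩ := hf
  rw [mem_pi]
  intro p hp
  unfold cop at hn
  rw [mem_filter, mem_Icc] at hn
  have := Nat.factorization_lt p (show n ≠ 0 by omega)
  rw [mem_range]
  omega

end Pool.Agent.SU
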