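import Pool.Agent.helper40.SU.SpecA

/-! SU (MP_c66272_nt), row GAP: points with a common slope modulo `M`. -/

set_option autoImplicit false

namespace Pool.Agent.SU

open Finset

theorem GAP_key (B M : ℕ) (y : ℤ) (u k u' k' : ℕ) (hB : 1 ≤ B) (hM : 1 ≤ M) (h1 : u.Coprime k) (h1' : u'.Coprime k')
    (hu : B ≤ u) (hu2 : u ≤ 2 * B) (hu' : B ≤ u') (hu2' : u' ≤ 2 * B)
    (hd : (M : ℤ) ∣ (k : ℤ) - y * u) (hd' : (M : ℤ) ∣ (k' : ℤ) - y * u')
    (hfl : ⌊(k : ℝ) / u * (4 * B ^ 2 / M)⌋₊ = ⌊(k' : ℝ) / u' * (4 * B ^ 2 / M)⌋₊) : u = u' ∧ k = k' := by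
  have hu0 : 0 < u := by omega
  have hu0' : 0 < u' := by omega
  by_cases heq : k * u' = k' * u
  · have d1 : u ∣ u' := by
      have : u ∣ k * u' := by
        rw [heq]
        exact Dvd.intro_left _ rfl
      exact h1.dvd_of_dvd_mul_left this
    have d2 : u' ∣ u := by
      have : u' ∣ k' * u := by
        rw [← heq]
        exact Dvd.intro_left _ rfl
      exact h1'.dvd_of_dvd_mul_left this
    have e1 : u = u' := Nat.dvd_antisymm d1 d2
    subst e1
    exact ⟨rfl, Nat.eq_of_mul_eq_mul_right hu0 heq⟩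
  · exfalso
    have hne : (k : ℤ) * u' - k' * u ≠ 0 := by
      intro h
      apply heq
      have : (k : ℤ) * u' = k' * u := by linarith
      exact_mod_cast this
    have hdv : (M : ℤ) ∣ (k : ℤ) * u' - k' * u := by
      have e : (k : ℤ) * u' - k' * u = ((k : ℤ) - y * u) * u' - ((k' : ℤ) - y * u') * u := by ring
      rw [e]
      exact dvd_sub (hd.mul_right _) (hd'.mul_right _)
    have hle : (M : ℤ) ≤ |(k : ℤ) * u' - k' * u| := Int.le_of_dvd (abs_pos.2 hne) ((dvd_abs _ _).2 hdv)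
    have hleR : (M : ℝ) ≤ |(k : ℝ) * u' - k' * u| := by exact_mod_cast hle
    have hMR : (0 : ℝ) < M := by exact_mod_cast (by omega : 0 < M)
    have hBR : (0 : ℝ) < B := by exact_mod_cast (by omega : 0 < B)
    have huR : (0 : ℝ) < u := by exact_mod_cast hu0
    have huR' : (0 : ℝ) < u' := by exact_mod_cast hu0'
    have hu2R : (u : ℝ) ≤ 2 * B := by exact_mod_cast hu2
    have hu2R' : (u' : ℝ) ≤ 2 * B := by exact_mod_cast hu2'
    have huu : (u : ℝ) * u' ≤ 4 * B ^ 2 := by nlinarith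
    have hlt : |(k : ℝ) / u * (4 * B ^ 2 / M) - (k' : ℝ) / u' * (4 * B ^ 2 / M)| < 1 := by
      have a1 := Nat.floor_le (show 0 ≤ (k : ℝ) / u * (4 * B ^ 2 / M) by positivity)
      have a2 := Nat.lt_floor_add_one ((k : ℝ) / u * (4 * B ^ 2 / M))
      have a3 := Nat.floor_le (show 0 ≤ (k' : ℝ) / u' * (4 * B ^ 2 / M) by positivity)
      have a4 := Nat.lt_floor_add_one ((k' : ℝ) / u' * (4 * B ^ 2 / M))
      rw [hfl] at a1 a2
      rw [abs_lt]
      constructor <;> linarith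
    have hge : 1 ≤ |(k : ℝ) / u * (4 * B ^ 2 / M) - (k' : ℝ) / u' * (4 * B ^ 2 / M)| := by
      have e : (k : ℝ) / u * (4 * B ^ 2 / M) - (k' : ℝ) / u' * (4 * B ^ 2 / M) =
          ((k : ℝ) * u' - k' * u) * (4 * B ^ 2 / (M * (u * u'))) := by
        field_simp
      rw [e, abs_mul, abs_of_pos (by positivity : 0 < 4 * (B : ℝ) ^ 2 / (M * (u * u')))]
      have e2 : (M : ℝ) * (1 / M) ≤ |(k : ℝ) * u' - k' * u| * (4 * B ^ 2 / (M * (u * u'))) := by
        apply mul_le_mul hleR _ (by positivity) (abs_nonneg _)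
        rw [div_le_div_iff₀ hMR (by positivity)]
        nlinarith
      rwa [mul_one_div_cancel hMR.ne'] at e2
    linarith

theorem GAP : GAP_stmt := by
  intro A B M y hB hM hA
  have hMR : (0 : ℝ) < M := by exact_mod_cast (by omega : 0 < M)
  have hBR : (0 : ℝ) < B := by exact_mod_cast (by omega : 0 < B)
  have hcard : A.card ≤ (range (⌊8 * (B : ℝ) ^ 2 / M⌋₊ + 1)).card := by
    refine card_le_card_of_injOn (fun x => ⌊(x.2 : ℝ) / x.1 * (4 * B ^ 2 / M)⌋₊) ?_ ?_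
    · intro x hx
      obtain ⟨_, h2, _, _, h5, _⟩ := hA x hx
      have huR : (0 : ℝ) < x.1 := by exact_mod_cast (by omega : 0 < x.1)
      have h2R : (B : ℝ) ≤ x.1 := by exact_mod_cast h2
      have h5R : (x.2 : ℝ) ≤ 2 * B := by exact_mod_cast h5
      simp only [coe_range, Set.mem_Iio]
      rw [Nat.lt_succ_iff]
      apply Nat.floor_le_floor
      have h6 : (x.2 : ℝ) / x.1 ≤ 2 := by
        rw [div_le_iff₀ huR]
        linarith
      calc (x.2 : ℝ) / x.1 * (4 * B ^ 2 / M) ≤ 2 * (4 * B ^ 2 / M) := by gcongr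
        _ = 8 * (B : ℝ) ^ 2 / M := by ring
    · intro x hx x' hx' hxx
      obtain ⟨h1, h2, h3, h4, h5, h6⟩ := hA x hx
      obtain ⟨h1', h2', h3', h4', h5', h6'⟩ := hA x' hx'
      have := GAP_key B M y x.1 x.2 x'.1 x'.2 hB hM h1 h1' h2 h3 h2' h3' h6 h6' hxx
      exact Prod.ext this.1 this.2
  rw [card_range] at hcard
  have h7 : (A.card : ℝ) ≤ (⌊8 * (B : ℝ) ^ 2 / M⌋₊ : ℝ) + 1 := by exact_mod_cast hcard
  have h8 := Nat.floor_le (show 0 ≤ 8 * (B : ℝ) ^ 2 / M by positivity)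
  linarith

end Pool.Agent.SU
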