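import Pool.Agent.helper40.SU.SpecT

/-! SU (MP_c66272_nt), row TB1: reduction of binary forms. -/

set_option autoImplicit false

namespace Pool.Agent.SU

open Finset

theorem TB1_pos (a b c x y : ℤ) (ha : 0 < a) (hd : 0 < a * c - b ^ 2) (h : x ≠ 0 ∨ y ≠ 0) :
    0 < a * x ^ 2 + 2 * b * x * y + c * y ^ 2 := by
  have key : a * (a * x ^ 2 + 2 * b * x * y + c * y ^ 2) = (a * x + b * y) ^ 2 + (a * c - b ^ 2) * y ^ 2 := by ring
  by_cases hy : y = 0
  · subst hy
    have hx : x ≠ 0 := by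
      rcases h with h | h
      · exact h
      · exact absurd rfl h
    have : 0 < x ^ 2 := by positivity
    have := mul_pos ha this
    nlinarith
  · have h1 : 0 < y ^ 2 := by positivity
    have h2 := mul_pos hd h1
    have h3 : 0 < a * (a * x ^ 2 + 2 * b * x * y + c * y ^ 2) := by
      rw [key]
      have := sq_nonneg (a * x + b * y)
      linarith
    exact (mul_pos_iff_of_pos_left ha).mp h3

theorem TB1 : TB1_stmt := by
  intro a b c ha hd
  classical
  have hex : ∃ m : ℕ, ∃ p q r s : ℤ, p * s - q * r = 1 ∧ a * p ^ 2 + 2 * b * p * r + c * r ^ 2 = (m : ℤ) := by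
    refine ⟨a.toNat, 1, 0, 0, 1, by ring, ?_⟩
    rw [Int.toNat_of_nonneg ha.le]
    ring
  obtain ⟨p, q, r, s, h1, h2⟩ := Nat.find_spec hex
  have hmin : ∀ p' q' r' s' : ℤ, p' * s' - q' * r' = 1 →
      ((Nat.find hex : ℕ) : ℤ) ≤ a * p' ^ 2 + 2 * b * p' * r' + c * r' ^ 2 := by
    intro p' q' r' s' h
    have hne : p' ≠ 0 ∨ r' ≠ 0 := by
      by_contra hc
      push Not at hc
      rw [hc.1, hc.2] at h
      simp at h
    have hpos := TB1_pos a b c p' r' ha hd hne
    have hle := Nat.find_min' hex (m := (a * p' ^ 2 + 2 * b * p' * r' + c * r' ^ 2).toNat)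
      ⟨p', q', r', s', h, by rw [Int.toNat_of_nonneg hpos.le]⟩
    have := Int.toNat_of_nonneg hpos.le
    omega
  set m : ℤ := ((Nat.find hex : ℕ) : ℤ) with hm
  have hne : p ≠ 0 ∨ r ≠ 0 := by
    by_contra hc
    push Not at hc
    rw [hc.1, hc.2] at h1
    simp at h1
  have hpos := TB1_pos a b c p r ha hd hne
  have hm0 : 0 < m := by
    rw [← h2]
    exact hpos
  set b' : ℤ := a * p * q + b * (p * s + q * r) + c * r * s with hb'
  set t : ℤ := -((2 * b' + m) / (2 * m)) with ht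
  have e := Int.emod_add_mul_ediv (2 * b' + m) (2 * m)
  have e1 := Int.emod_nonneg (2 * b' + m) (show 2 * m ≠ 0 by omega)
  have e2 := Int.emod_lt_of_pos (2 * b' + m) (show 0 < 2 * m by omega)
  have hb2 : 2 * (b' + t * m) = (2 * b' + m) % (2 * m) - m := by
    rw [ht]
    linarith
  have hc' := hmin (q + t * p) (-p) (s + t * r) (-r) (by linarith)
  set c' : ℤ := a * (q + t * p) ^ 2 + 2 * b * (q + t * p) * (s + t * r) + c * (s + t * r) ^ 2 with hcd
  have hid : m * c' - (b' + t * m) ^ 2 = (a * c - b ^ 2) * (p * s - q * r) ^ 2 := by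
    rw [hcd, hb', ← h2]
    ring
  rw [h1] at hid
  have hb4 : (2 * (b' + t * m)) ^ 2 ≤ m ^ 2 := by
    rw [hb2]
    apply sq_le_sq'
    · linarith
    · linarith
  refine ⟨p, q, r, s, h1, hpos, ?_⟩
  rw [h2]
  have h5 : m * m ≤ m * c' := mul_le_mul_of_nonneg_left hc' hm0.le
  nlinarith

end Pool.Agent.SU
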