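import Pool.Agent.helper40.SU.SpecB

/-! SU (MP_c66272_nt), row WSM: the weights of the numbers with large prime factors. -/

set_option autoImplicit false

namespace Pool.Agent.SU

open Finset

noncomputable def WSM_F (j : ℕ) : ℝ := wj j * 5 ^ (om j) * (j : ℝ) ^ (1 / 10 : ℝ)

theorem WSM_F_nonneg (n : ℕ) : 0 ≤ WSM_F n := by
  unfold WSM_F wj
  positivity

theorem WSM_F_one : WSM_F 1 = 1 := by
  unfold WSM_F wj om
  simp

theorem WSM_F_mul (a b : ℕ) (h : a.Coprime b) : WSM_F (a * b) = WSM_F a * WSM_F b := by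
  rcases Nat.eq_zero_or_pos a with ha | ha
  · subst ha
    rw [Nat.coprime_zero_left] at h
    subst h
    rw [WSM_F_one, mul_one, mul_one]
  rcases Nat.eq_zero_or_pos b with hb | hb
  · subst hb
    rw [Nat.coprime_zero_right] at h
    subst h
    rw [WSM_F_one, one_mul, one_mul]
  have hd : Disjoint a.primeFactors b.primeFactors := h.disjoint_primeFactors
  have ho : om (a * b) = om a + om b := by
    unfold om
    rw [h.primeFactors_mul, card_union_of_disjoint hd]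
  have hp : ∏ p ∈ (a * b).primeFactors, (p : ℝ) = (∏ p ∈ a.primeFactors, (p : ℝ)) * ∏ p ∈ b.primeFactors, (p : ℝ) := by
    rw [h.primeFactors_mul, prod_union hd]
  have hs : √((a * b : ℕ) : ℝ) = √(a : ℝ) * √(b : ℝ) := by
    rw [Nat.cast_mul, Real.sqrt_mul (Nat.cast_nonneg a)]
  have hr : ((a * b : ℕ) : ℝ) ^ (1 / 10 : ℝ) = (a : ℝ) ^ (1 / 10 : ℝ) * (b : ℝ) ^ (1 / 10 : ℝ) := by
    rw [Nat.cast_mul, Real.mul_rpow (Nat.cast_nonneg a) (Nat.cast_nonneg b)]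
  unfold WSM_F wj
  rw [ho, hp, hs, hr, pow_add, pow_add]
  have h1 : (0 : ℝ) < ∏ p ∈ a.primeFactors, (p : ℝ) := prod_pos fun p hp => Nat.cast_pos.mpr (Nat.prime_of_mem_primeFactors hp).pos
  have h2 : (0 : ℝ) < ∏ p ∈ b.primeFactors, (p : ℝ) := prod_pos fun p hp => Nat.cast_pos.mpr (Nat.prime_of_mem_primeFactors hp).pos
  have h3 : (0 : ℝ) < √(a : ℝ) := Real.sqrt_pos.mpr (Nat.cast_pos.mpr ha)
  have h4 : (0 : ℝ) < √(b : ℝ) := Real.sqrt_pos.mpr (Nat.cast_pos.mpr hb)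
  field_simp

theorem WSM_F_pow (p b : ℕ) (hp : p.Prime) (hb : 1 ≤ b) :
    WSM_F (p ^ b) = 10 * (p : ℝ)⁻¹ * ((p : ℝ) ^ (-(2 / 5) : ℝ)) ^ b := by
  have hf : (p ^ b).primeFactors = {p} := by
    rw [Nat.primeFactors_pow p (by omega), hp.primeFactors]
  have hp0 : (0 : ℝ) < p := Nat.cast_pos.mpr hp.pos
  have hs : √((p ^ b : ℕ) : ℝ) = (p : ℝ) ^ ((b : ℝ) * (1 / 2)) := by
    rw [Real.sqrt_eq_rpow, Nat.cast_pow, ← Real.rpow_natCast, ← Real.rpow_mul hp0.le]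
  have hr : ((p ^ b : ℕ) : ℝ) ^ (1 / 10 : ℝ) = (p : ℝ) ^ ((b : ℝ) * (1 / 10)) := by
    rw [Nat.cast_pow, ← Real.rpow_natCast, ← Real.rpow_mul hp0.le]
  have hq : ((p : ℝ) ^ (-(2 / 5) : ℝ)) ^ b = (p : ℝ) ^ ((b : ℝ) * (1 / 10)) / (p : ℝ) ^ ((b : ℝ) * (1 / 2)) := by
    rw [← Real.rpow_natCast, ← Real.rpow_mul hp0.le, ← Real.rpow_sub hp0]
    ring_nf
  unfold WSM_F wj om
  rw [hf, hs, hr, hq]
  have h5 : (0 : ℝ) < (p : ℝ) ^ ((b : ℝ) * (1 / 2)) := Real.rpow_pos_of_pos hp0 _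
  simp only [card_singleton, pow_one, prod_singleton]
  field_simp
  norm_num

theorem WSM_geom (x : ℝ) (h0 : 0 ≤ x) (h1 : x ≤ 1 / 2) (N : ℕ) : ∑ b ∈ Icc 1 N, x ^ b ≤ 2 * x := by
  have key : ∀ M : ℕ, ∑ b ∈ Icc 1 M, x ^ b ≤ 2 * x - 2 * x ^ (M + 1) := by
    intro M
    induction M with
    | zero => simp
    | succ M ih =>
      rw [sum_Icc_succ_top (by omega)]
      have h2 : 0 ≤ x ^ (M + 1) := pow_nonneg h0 _
      have h3 : x ^ (M + 1 + 1) = x ^ (M + 1) * x := pow_succ _ _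
      rw [h3]
      nlinarith
  have := key N
  have h2 : 0 ≤ x ^ (N + 1) := pow_nonneg h0 _
  linarith

theorem WSM_step (M : ℕ) (hM : 1 ≤ M) :
    ((M + 1 : ℕ) : ℝ) ^ (-(7 / 5) : ℝ) ≤ 5 / 2 * ((M : ℝ) ^ (-(2 / 5) : ℝ) - ((M + 1 : ℕ) : ℝ) ^ (-(2 / 5) : ℝ)) := by
  have hM0 : (0 : ℝ) < M := Nat.cast_pos.mpr hM
  have hn0 : (0 : ℝ) < ((M + 1 : ℕ) : ℝ) := by positivity
  set n : ℝ := ((M + 1 : ℕ) : ℝ) with hn
  have hnM : (M : ℝ) = n * (1 + -(1 / n)) := by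
    have : n * (1 + -(1 / n)) = n - 1 := by
      field_simp
      ring
    rw [this, hn]
    push_cast
    ring
  have hn1 : 1 / n ≤ 1 := by
    rw [div_le_one hn0, hn]
    push_cast
    linarith
  have hB : (1 + -(1 / n)) ^ (2 / 5 : ℝ) ≤ 1 + (2 / 5 : ℝ) * -(1 / n) :=
    rpow_one_add_le_one_add_mul_self (by linarith) (by norm_num) (by norm_num)
  have hpos : 0 < 1 + -(1 / n) := by
    have : 0 < n * (1 + -(1 / n)) := by
      rw [← hnM]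
      exact hM0
    exact (mul_pos_iff_of_pos_left hn0).mp this
  have hx : (1 + -(1 / n)) ^ (2 / 5 : ℝ) * (1 + 2 / 5 * (1 / n)) ≤ 1 := by
    have h1 : 0 ≤ 1 + 2 / 5 * (1 / n) := by positivity
    calc (1 + -(1 / n)) ^ (2 / 5 : ℝ) * (1 + 2 / 5 * (1 / n)) ≤ (1 + (2 / 5 : ℝ) * -(1 / n)) * (1 + 2 / 5 * (1 / n)) :=
          mul_le_mul_of_nonneg_right hB h1
      _ = 1 - (2 / 5 * (1 / n)) ^ 2 := by ring
      _ ≤ 1 := by
          have := sq_nonneg (2 / 5 * (1 / n))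
          linarith
  have hy : 1 + 2 / 5 * (1 / n) ≤ (1 + -(1 / n)) ^ (-(2 / 5) : ℝ) := by
    rw [Real.rpow_neg hpos.le]
    have hp := Real.rpow_pos_of_pos hpos (2 / 5 : ℝ)
    rw [← one_div, le_div_iff₀ hp]
    linarith
  have hM2 : (M : ℝ) ^ (-(2 / 5) : ℝ) = n ^ (-(2 / 5) : ℝ) * (1 + -(1 / n)) ^ (-(2 / 5) : ℝ) := by
    rw [hnM, Real.mul_rpow hn0.le hpos.le]
  have h7 : n ^ (-(7 / 5) : ℝ) = n ^ (-(2 / 5) : ℝ) * (1 / n) := by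
    have : (-(7 / 5) : ℝ) = -(2 / 5) + -1 := by norm_num
    rw [this, Real.rpow_add hn0, Real.rpow_neg_one, one_div]
  rw [hM2, h7]
  have hq : 0 < n ^ (-(2 / 5) : ℝ) := Real.rpow_pos_of_pos hn0 _
  have := mul_le_mul_of_nonneg_left hy hq.le
  nlinarith

theorem WSM_tail (Z : ℕ) (hZ : 1 ≤ Z) (M : ℕ) (hM : Z ≤ M) :
    ∑ n ∈ Ioc Z M, (n : ℝ) ^ (-(7 / 5) : ℝ) ≤ 5 / 2 * ((Z : ℝ) ^ (-(2 / 5) : ℝ) - (M : ℝ) ^ (-(2 / 5) : ℝ)) := by
  induction M, hM using Nat.le_induction with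
  | base => simp
  | succ M hM ih =>
    have hs := WSM_step M (by omega)
    have e : Ioc Z (M + 1) = insert (M + 1) (Ioc Z M) := by
      ext x
      simp only [mem_insert, mem_Ioc]
      omega
    have hni : M + 1 ∉ Ioc Z M := by
      simp
    rw [e, sum_insert hni]
    linarith

theorem WSM_tail' (Z : ℕ) (hZ : 1 ≤ Z) (M : ℕ) :
    ∑ n ∈ Ioc Z M, (n : ℝ) ^ (-(7 / 5) : ℝ) ≤ 5 / 2 * (Z : ℝ) ^ (-(2 / 5) : ℝ) := by
  rcases le_total Z M with h | h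
  · have := WSM_tail Z hZ M h
    have h2 : 0 ≤ (M : ℝ) ^ (-(2 / 5) : ℝ) := by positivity
    linarith
  · rw [Ioc_eq_empty (by omega), sum_empty]
    positivity

theorem WSM_full (hEUP : EUP_stmt) (Z : ℕ) (hZ : 6 ≤ Z) (q : ℕ) (hS : Sm Z q) (N : ℕ) :
    ∑ j ∈ cop q N, WSM_F j ≤ Real.exp (50 * (Z : ℝ) ^ (-(2 / 5) : ℝ)) := by
  have hmem : ∀ p ∈ (cop q N).filter Nat.Prime, p.Prime ∧ Z < p ∧ p ≤ N := by
    intro p hp
    rw [mem_filter] at hp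
    obtain ⟨hp1, hp2⟩ := hp
    unfold cop at hp1
    rw [mem_filter, mem_Icc] at hp1
    refine ⟨hp2, ?_, hp1.1.2⟩
    by_contra hc
    have hd := hS p hp2 (by omega)
    have := Nat.Coprime.eq_one_of_dvd hp1.2 hd
    exact hp2.one_lt.ne' this
  refine (hEUP WSM_F WSM_F_nonneg WSM_F_one WSM_F_mul q N).trans ?_
  have h1 : ∀ p ∈ (cop q N).filter Nat.Prime, 1 + ∑ b ∈ Icc 1 N, WSM_F (p ^ b) ≤ Real.exp (20 * (p : ℝ) ^ (-(7 / 5) : ℝ)) := by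
    intro p hp
    obtain ⟨hpp, hpZ, _⟩ := hmem p hp
    have hp0 : (0 : ℝ) < p := Nat.cast_pos.mpr hpp.pos
    have e : ∑ b ∈ Icc 1 N, WSM_F (p ^ b) = 10 * (p : ℝ)⁻¹ * ∑ b ∈ Icc 1 N, ((p : ℝ) ^ (-(2 / 5) : ℝ)) ^ b := by
      rw [mul_sum]
      refine sum_congr rfl fun b hb => ?_
      rw [mem_Icc] at hb
      exact WSM_F_pow p b hpp hb.1
    have hx : (p : ℝ) ^ (-(2 / 5) : ℝ) ≤ 1 / 2 := by
      have h6 : (2 : ℝ) ^ (5 / 2 : ℝ) ≤ p := by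
        have h32 : (2 : ℝ) ^ (5 / 2 : ℝ) ≤ 6 := by
          have h1 : (2 : ℝ) ^ (5 / 2 : ℝ) = √32 := by
            rw [Real.sqrt_eq_rpow, show (32 : ℝ) = 2 ^ (5 : ℝ) by norm_num, ← Real.rpow_mul (by norm_num)]
            norm_num
          rw [h1, Real.sqrt_le_left (by norm_num)]
          norm_num
        have h7 : (6 : ℝ) ≤ p := by
          have : 6 ≤ p := by omega
          exact_mod_cast this
        linarith
      have h2 : ((2 : ℝ) ^ (5 / 2 : ℝ)) ^ (2 / 5 : ℝ) ≤ (p : ℝ) ^ (2 / 5 : ℝ) :=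
        Real.rpow_le_rpow (by positivity) h6 (by norm_num)
      rw [← Real.rpow_mul (by norm_num)] at h2
      have h3 : (2 : ℝ) ^ ((5 / 2 : ℝ) * (2 / 5)) = 2 := by
        norm_num
      rw [h3] at h2
      rw [Real.rpow_neg hp0.le, ← one_div]
      exact one_div_le_one_div_of_le (by norm_num) h2
    have hx0 : 0 ≤ (p : ℝ) ^ (-(2 / 5) : ℝ) := by positivity
    have hg := WSM_geom _ hx0 hx N
    have h7 : (p : ℝ) ^ (-(7 / 5) : ℝ) = (p : ℝ)⁻¹ * (p : ℝ) ^ (-(2 / 5) : ℝ) := by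
      have : (-(7 / 5) : ℝ) = -1 + -(2 / 5) := by norm_num
      rw [this, Real.rpow_add hp0, Real.rpow_neg_one]
    have hle : ∑ b ∈ Icc 1 N, WSM_F (p ^ b) ≤ 20 * (p : ℝ) ^ (-(7 / 5) : ℝ) := by
      rw [e, h7]
      have : 10 * (p : ℝ)⁻¹ * ∑ b ∈ Icc 1 N, ((p : ℝ) ^ (-(2 / 5) : ℝ)) ^ b ≤ 10 * (p : ℝ)⁻¹ * (2 * (p : ℝ) ^ (-(2 / 5) : ℝ)) :=
        mul_le_mul_of_nonneg_left hg (by positivity)
      linarith
    have := Real.add_one_le_exp (20 * (p : ℝ) ^ (-(7 / 5) : ℝ))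
    linarith
  refine (prod_le_prod (fun p _ => ?_) h1).trans ?_
  · have : 0 ≤ ∑ b ∈ Icc 1 N, WSM_F (p ^ b) := sum_nonneg fun b _ => WSM_F_nonneg _
    linarith
  rw [← Real.exp_sum]
  apply Real.exp_le_exp.mpr
  rw [← mul_sum]
  have hsub : (cop q N).filter Nat.Prime ⊆ Ioc Z N := by
    intro p hp
    have := hmem p hp
    rw [mem_Ioc]
    exact this.2
  have h2 : ∑ p ∈ (cop q N).filter Nat.Prime, (p : ℝ) ^ (-(7 / 5) : ℝ) ≤ ∑ n ∈ Ioc Z N, (n : ℝ) ^ (-(7 / 5) : ℝ) :=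
    sum_le_sum_of_subset_of_nonneg hsub (fun n _ _ => by positivity)
  have h3 := WSM_tail' Z (by omega) N
  linarith

theorem WSM (hEUP : EUP_stmt) : WSM_stmt := by
  refine ⟨10 ^ 14, fun Z hZ q hS N => ?_⟩
  have hZ6 : 6 ≤ Z := le_trans (by norm_num) hZ
  have hZr : (10 : ℝ) ^ 14 ≤ (Z : ℝ) := by exact_mod_cast hZ
  have hZ0 : (0 : ℝ) < Z := lt_of_lt_of_le (by positivity) hZr
  rcases Nat.eq_zero_or_pos N with hN | hN
  · subst hN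
    have e : cop q 0 = ∅ := by
      unfold cop
      simp
    rw [e, filter_empty, sum_empty]
    positivity
  have hf := WSM_full hEUP Z hZ6 q hS N
  have h1m : 1 ∈ cop q N := by
    unfold cop
    rw [mem_filter, mem_Icc]
    exact ⟨⟨le_refl 1, hN⟩, Nat.coprime_one_left _⟩
  have hsplit : ∑ j ∈ (cop q N).filter (fun j => j ≠ 1), WSM_F j = ∑ j ∈ cop q N, WSM_F j - 1 := by
    rw [filter_ne', ← add_sum_erase _ _ h1m, WSM_F_one]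
    ring
  have hgoal : ∑ j ∈ (cop q N).filter (fun j => j ≠ 1), wj j * 5 ^ (om j) * (j : ℝ) ^ (1 / 10 : ℝ)
      = ∑ j ∈ (cop q N).filter (fun j => j ≠ 1), WSM_F j := rfl
  rw [hgoal, hsplit]
  have h100 : (100 : ℝ) ≤ (Z : ℝ) ^ (3 / 20 : ℝ) := by
    have h1 : ((10 : ℝ) ^ 14) ^ (3 / 20 : ℝ) ≤ (Z : ℝ) ^ (3 / 20 : ℝ) :=
      Real.rpow_le_rpow (by positivity) hZr (by norm_num)
    have h2 : (100 : ℝ) ≤ ((10 : ℝ) ^ 14) ^ (3 / 20 : ℝ) := by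
      rw [← Real.rpow_natCast, ← Real.rpow_mul (by norm_num)]
      have h3 : (100 : ℝ) = (10 : ℝ) ^ (2 : ℝ) := by norm_num
      rw [h3]
      apply Real.rpow_le_rpow_of_exponent_le (by norm_num)
      norm_num
    exact h2.trans h1
  have hrel : (Z : ℝ) ^ (-(1 / 4) : ℝ) = (Z : ℝ) ^ (3 / 20 : ℝ) * (Z : ℝ) ^ (-(2 / 5) : ℝ) := by
    rw [← Real.rpow_add hZ0]
    norm_num
  have hy0 : 0 < (Z : ℝ) ^ (-(2 / 5) : ℝ) := Real.rpow_pos_of_pos hZ0 _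
  have hle1 : (Z : ℝ) ^ (-(1 / 4) : ℝ) ≤ 1 := by
    apply Real.rpow_le_one_of_one_le_of_nonpos
    · have : (1 : ℝ) ≤ 10 ^ 14 := by norm_num
      linarith
    · norm_num
  have h100y : 100 * (Z : ℝ) ^ (-(2 / 5) : ℝ) ≤ (Z : ℝ) ^ (-(1 / 4) : ℝ) := by
    rw [hrel]
    exact mul_le_mul_of_nonneg_right h100 hy0.le
  have hexp : Real.exp (50 * (Z : ℝ) ^ (-(2 / 5) : ℝ)) - 1 ≤ 2 * (50 * (Z : ℝ) ^ (-(2 / 5) : ℝ)) := by
    have habs : |50 * (Z : ℝ) ^ (-(2 / 5) : ℝ)| = 50 * (Z : ℝ) ^ (-(2 / 5) : ℝ) := abs_of_pos (by positivity)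
    have h := Real.abs_exp_sub_one_le (x := 50 * (Z : ℝ) ^ (-(2 / 5) : ℝ)) (by rw [habs]; linarith)
    rw [habs] at h
    exact (le_abs_self _).trans h
  linarith

end Pool.Agent.SU
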